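import Pool.Agent.H195.NL.Neg2

/-!
# Negacyclic convolution, part 3: cost (subtask NEG for helper717, MP_26b317_lc)
-/

set_option autoImplicit false

open Polynomial

namespace Pool.Agent.H195.NL

open Pool.Agent.H717.NL

lemma cost_halve (n : ℕ) : Cmp (fun r : ℝ => r / 2 ^ n) (4 * n) := by
  induction n with
  | zero => exact (Cmp.id (α := ℝ)).congr fun a => by simp
  | succ n ih =>
    have h2 : Cmp (fun r : ℝ => r / (1 + 1)) 4 :=
      ((Cmp.id (α := ℝ)).div' ((Cmp.one (α := ℝ)).add' Cmp.one)).mono (by omega)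
    refine ((ih.comp h2).mono (by omega)).congr fun a => ?_
    rw [div_div, pow_succ]
    norm_num

lemma blk_lt {s s' a j : ℕ} (ha : a < 2 ^ s') (hj : j < 2 ^ s) :
    a + 2 ^ s' * j < 2 ^ (s + s') := by
  have h1 : 2 ^ (s + s') = 2 ^ s' * 2 ^ s := by rw [pow_add]; ring
  rw [h1]
  calc a + 2 ^ s' * j < 2 ^ s' + 2 ^ s' * j := by omega
    _ = 2 ^ s' * (j + 1) := by ring
    _ ≤ 2 ^ s' * 2 ^ s := Nat.mul_le_mul_left _ hj

lemma cost_pad (s s' : ℕ) : Cmp (pad s s') 3 := by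
  have h1 : Cmp (fun q : (Fin (2 ^ (s + s')) → ℝ) × ℝ =>
      (fun (a : Fin (2 ^ (s' + 1))) (j : Fin (2 ^ s)) =>
        if (a : ℕ) < 2 ^ s' then Pool.Agent.H717.NL.ext q.1 ((a : ℕ) + 2 ^ s' * (j : ℕ))
        else q.2)) 0 := by
    refine Cmp.free (fun t => if h : (t.1 : ℕ) < 2 ^ s' then
      Sum.inl ((⟨(t.1 : ℕ) + 2 ^ s' * (t.2.1 : ℕ), blk_lt h t.2.1.isLt⟩ :
        Fin (2 ^ (s + s'))), ()) else Sum.inr ()) ?_
    rintro ⟨v, z⟩ ⟨a, j, u⟩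
    show (if (a : ℕ) < 2 ^ s' then Pool.Agent.H717.NL.ext v ((a : ℕ) + 2 ^ s' * (j : ℕ))
        else z) = _
    by_cases h : (a : ℕ) < 2 ^ s'
    · simp only [h, if_true, dif_pos]
      unfold Pool.Agent.H717.NL.ext
      rw [dif_pos (blk_lt h j.isLt)]
      rfl
    · simp only [h, if_false, dif_neg, not_false_eq_true]
      rfl
  exact ((Cmp.zero (α := Fin (2 ^ (s + s')) → ℝ)).bind h1)

lemma cost_hh {s s' a j : ℕ} (ha : a < 2 ^ (s' + 1)) (hj : j < 2 ^ s) :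
    Cmp (fun H : Fin (2 ^ (s' + 1)) → Fin (2 ^ s) → ℝ => hh H a j) 0 := by
  refine ((Cmp.proj (⟨a, ha⟩ : Fin (2 ^ (s' + 1)))).on
    (Cmp.proj (α := ℝ) (⟨j, hj⟩ : Fin (2 ^ s)))).congr fun H => ?_
  unfold hh Pool.Agent.H717.NL.ext
  rw [dif_pos ha, dif_pos hj]

lemma cost_comb (s s' : ℕ) : Cmp (comb s s') (2 ^ (s + s') * (1 + 4 * (s' + 1))) := by
  refine Cmp.pi fun l => ?_
  have h0 : 0 < 2 ^ s' := by positivity
  have h1 : 2 ^ (s' + 1) = 2 ^ s' + 2 ^ s' := by rw [pow_succ]; ring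
  have h2 : (l : ℕ) % 2 ^ s' < 2 ^ s' := Nat.mod_lt _ h0
  have h3 : (l : ℕ) / 2 ^ s' < 2 ^ s := by
    apply Nat.div_lt_of_lt_mul
    have h4 : 2 ^ (s + s') = 2 ^ s' * 2 ^ s := by rw [pow_add]; ring
    rw [← h4]
    exact l.isLt
  have h5 : 0 < 2 ^ s := by positivity
  have hA := cost_hh (s := s) (s' := s') (a := (l : ℕ) % 2 ^ s') (j := (l : ℕ) / 2 ^ s')
    (by omega) h3
  by_cases hl : (l : ℕ) / 2 ^ s' = 0
  · have hB := cost_hh (s := s) (s' := s') (a := (l : ℕ) % 2 ^ s' + 2 ^ s') (j := 2 ^ s - 1)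
      (by omega) (by omega)
    refine (((hA.sub' hB).comp (cost_halve (s' + 1))).mono (by omega)).congr fun H => ?_
    unfold comb
    rw [if_pos hl]
    ring
  · have hB := cost_hh (s := s) (s' := s') (a := (l : ℕ) % 2 ^ s' + 2 ^ s')
      (j := (l : ℕ) / 2 ^ s' - 1) (by omega) (by omega)
    refine (((hA.add' hB).comp (cost_halve (s' + 1))).mono (by omega)).congr fun H => ?_
    unfold comb
    rw [if_neg hl]

lemma cost_pointwise {M s N : ℕ} (h : Cmp (neg s) N) :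
    Cmp (fun q : (Fin M → Fin (2 ^ s) → ℝ) × (Fin M → Fin (2 ^ s) → ℝ) =>
      fun j => neg s (q.1 j, q.2 j)) (M * N) := by
  refine Cmp.pi fun j => ?_
  have h1 : Cmp (fun q : (Fin M → Fin (2 ^ s) → ℝ) × (Fin M → Fin (2 ^ s) → ℝ) =>
      (q.1 j, q.2 j)) 0 :=
    ((Cmp.fst.on (Cmp.proj j)).pair (Cmp.snd.on (Cmp.proj j))).mono (by omega)
  exact h1.on h

lemma step {K₀ : ℕ} (h : ∀ s m u : ℕ, m ≤ s + 1 → Cmp (dft s m u) (K₀ * 2 ^ m * 2 ^ s * (m + 1)))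
    {s s' N : ℕ} (hs : s' ≤ s) (hN : Cmp (neg s) N) :
    Cmp (neg (s + s')) (2 ^ (s' + 1) * N + (6 * K₀ + 7) * 2 ^ (s + s') * (s' + 2)) := by
  have hF : Cmp (fun f => dft s (s' + 1) 1 (pad s s' f))
      (3 + K₀ * 2 ^ (s' + 1) * 2 ^ s * (s' + 1 + 1)) :=
    (cost_pad s s').comp (h s (s' + 1) 1 (by omega))
  have hP := ((Cmp.fst.on hF).pair (Cmp.snd.on hF)).comp (cost_pointwise hN)
  have hI := hP.comp (h s (s' + 1) (2 ^ (s + 1) - 1) (by omega))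
  have hC := hI.comp (cost_comb s s')
  refine (hC.mono ?_).congr fun p => correct hs p.1 p.2
  have h1 : 2 ^ (s' + 1) * 2 ^ s = 2 * 2 ^ (s + s') := by
    rw [pow_add, pow_add]; ring
  have h2 : K₀ * 2 ^ (s' + 1) * 2 ^ s * (s' + 1 + 1) = 2 * K₀ * 2 ^ (s + s') * (s' + 2) := by
    rw [mul_assoc K₀, h1]; ring
  rw [h2]
  have h3 : 1 ≤ 2 ^ (s + s') := Nat.one_le_two_pow
  have h4 : 6 ≤ 3 * 2 ^ (s + s') * (s' + 2) := by nlinarith
  have h5 : 2 ^ (s + s') * (1 + 4 * (s' + 1)) ≤ 4 * 2 ^ (s + s') * (s' + 2) := by nlinarith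
  nlinarith

lemma base0 : Cmp (neg 0) 1 := by
  refine ((Cmp.pi (n := 2 ^ 0) (c := 1) (f := fun (p : (Fin (2 ^ 0) → ℝ) × (Fin (2 ^ 0) → ℝ)) _ =>
    p.1 0 * p.2 0) fun i => ?_).mono (by norm_num)).congr fun p => ?_
  · exact ((Cmp.fst.on (Cmp.proj (0 : Fin (2 ^ 0)))).mul'
      (Cmp.snd.on (Cmp.proj (0 : Fin (2 ^ 0))))).mono (by omega)
  · symm
    apply red_eq_of_dvd
    have h1 : ∀ v : Fin (2 ^ 0) → ℝ, toPoly v = C (v 0) := by
      intro v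
      unfold toPoly
      rw [Fintype.sum_eq_single (0 : Fin (2 ^ 0))]
      · simp
      · intro i hi
        exact absurd (Subsingleton.elim (α := Fin 1) i 0) hi
    rw [h1, h1, h1]
    simp

lemma toPoly_two {n : ℕ} (hn : n = 2) (v : Fin n → ℝ) :
    toPoly v = C (v ⟨0, by omega⟩) + C (v ⟨1, by omega⟩) * X := by
  subst hn
  unfold toPoly
  rw [Fin.sum_univ_two]
  simp

lemma base1 : ∃ c, Cmp (neg 1) c := by
  have h2 : (2 : ℕ) ^ 1 = 2 := by norm_num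
  let i0 : Fin (2 ^ 1) := ⟨0, by norm_num⟩
  let i1 : Fin (2 ^ 1) := ⟨1, by norm_num⟩
  have hm : ∀ i j : Fin (2 ^ 1), Cmp (fun p : (Fin (2 ^ 1) → ℝ) × (Fin (2 ^ 1) → ℝ) =>
      p.1 i * p.2 j) 1 := fun i j =>
    ((Cmp.fst.on (Cmp.proj i)).mul' (Cmp.snd.on (Cmp.proj j))).mono (by omega)
  have h3 : Cmp (fun (p : (Fin (2 ^ 1) → ℝ) × (Fin (2 ^ 1) → ℝ)) (i : Fin (2 ^ 1)) =>
      if (i : ℕ) = 0 then p.1 i0 * p.2 i0 - p.1 i1 * p.2 i1
      else p.1 i0 * p.2 i1 + p.1 i1 * p.2 i0) (2 ^ 1 * 3) := by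
    refine Cmp.pi fun i => ?_
    by_cases hi : (i : ℕ) = 0
    · refine ((hm i0 i0).sub' (hm i1 i1)).congr fun p => ?_
      rw [if_pos hi]
    · refine ((hm i0 i1).add' (hm i1 i0)).congr fun p => ?_
      rw [if_neg hi]
  refine ⟨_, h3.congr fun p => ?_⟩
  symm
  apply red_eq_of_dvd
  rw [toPoly_two h2, toPoly_two h2, toPoly_two h2]
  refine ⟨C (p.1 i1 * p.2 i1), ?_⟩
  simp only [if_true, one_ne_zero, if_false, map_sub, map_add, map_mul, i0, i1]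
  ring

theorem t_neg (h : S_dftcost) : S_neg := by
  obtain ⟨K₀, hK₀⟩ := h
  have hd : ∀ s m u : ℕ, m ≤ s + 1 → Cmp (dft s m u) (K₀ * 2 ^ m * 2 ^ s * (m + 1)) :=
    fun s m u hm => hK₀ s m u hm
  obtain ⟨b1, hb1⟩ := base1
  have hb2 := step hd (s := 1) (s' := 1) le_rfl hb1
  have hb3 := step hd (s := 2) (s' := 1) (by omega) hb2
  set b2 := 2 ^ (1 + 1) * b1 + (6 * K₀ + 7) * 2 ^ (1 + 1) * (1 + 2) with hb2d
  set b3 := 2 ^ (1 + 1) * b2 + (6 * K₀ + 7) * 2 ^ (2 + 1) * (1 + 2) with hb3d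
  refine ⟨1 + b1 + b2 + b3 + (6 * K₀ + 7), fun k => ?_⟩
  set K := 1 + b1 + b2 + b3 + (6 * K₀ + 7) with hK
  show Cmp (neg k) (K * 2 ^ k * (k + 1) ^ 2)
  induction k using Nat.strong_induction_on with
  | _ k ih =>
    have hbase : ∀ c, c ≤ K → c ≤ K * 2 ^ k * (k + 1) ^ 2 := by
      intro c hc
      have h1 : 1 ≤ 2 ^ k := Nat.one_le_two_pow
      have h2 : 1 ≤ (k + 1) ^ 2 := Nat.one_le_pow _ _ (by omega)
      calc c ≤ K * 1 * 1 := by omega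
        _ ≤ K * 2 ^ k * (k + 1) ^ 2 := by gcongr
    by_cases hk : k < 4
    · interval_cases k
      · exact base0.mono (hbase 1 (by omega))
      · exact hb1.mono (hbase b1 (by omega))
      · exact hb2.mono (hbase b2 (by omega))
      · exact hb3.mono (hbase b3 (by omega))
    · obtain ⟨s, s', rfl, h1, h2, h3⟩ : ∃ s s', k = s + s' ∧ s' ≤ s ∧ s ≤ s' + 1 ∧ 2 ≤ s' :=
        ⟨(k + 1) / 2, k / 2, by omega, by omega, by omega, by omega⟩
      refine (step hd h1 (ih s (by omega))).mono ?_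
      have h4 : 2 ^ (s' + 1) * (K * 2 ^ s * (s + 1) ^ 2) =
          K * 2 ^ (s + s') * (2 * (s + 1) ^ 2) := by
        rw [pow_add, pow_add]; ring
      rw [h4]
      have h5 : 2 * (s + 1) ^ 2 + (s' + 2) ≤ (s + s' + 1) ^ 2 := by
        obtain rfl | rfl : s = s' ∨ s = s' + 1 := by omega
        · nlinarith
        · nlinarith
      calc K * 2 ^ (s + s') * (2 * (s + 1) ^ 2) + (6 * K₀ + 7) * 2 ^ (s + s') * (s' + 2)
          ≤ K * 2 ^ (s + s') * (2 * (s + 1) ^ 2) + K * 2 ^ (s + s') * (s' + 2) := by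
            gcongr; omega
        _ = K * 2 ^ (s + s') * (2 * (s + 1) ^ 2 + (s' + 2)) := by ring
        _ ≤ K * 2 ^ (s + s') * (s + s' + 1) ^ 2 := by gcongr

end Pool.Agent.H195.NL
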