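import Pool.Agent.H717.NL.Stmts2

/-!
# Negacyclic convolution, part 1: algebra (subtask NEG for helper717, MP_26b317_lc)
-/

set_option autoImplicit false

open Polynomial Finset

namespace Pool.Agent.H195.NL

open Pool.Agent.H717.NL

/-- geometric sums of length a power of two -/
lemma geom_prod {A : Type} [CommRing A] (z : A) (m : ℕ) :
    ∑ j ∈ range (2 ^ m), z ^ j = ∏ i ∈ range m, (1 + z ^ (2 ^ i)) := by
  induction m with
  | zero => simp
  | succ m ih =>
    rw [prod_range_succ, ← ih, pow_succ, mul_two, sum_range_add, mul_add, mul_one, sum_mul]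
    congr 1
    refine sum_congr rfl fun j _ => ?_
    rw [pow_add, mul_comm]

lemma geom_zero {A : Type} [CommRing A] (w : A) (m : ℕ) (hw : w ^ (2 ^ m) = -1) (d : ℕ)
    (hd : ¬ 2 ^ (m + 1) ∣ d) : ∑ j ∈ range (2 ^ (m + 1)), (w ^ d) ^ j = 0 := by
  have hd0 : d ≠ 0 := by
    rintro rfl
    exact hd (dvd_zero _)
  obtain ⟨e, t, ht, rfl⟩ := Nat.exists_eq_two_pow_mul_odd hd0
  have he : e ≤ m := by
    by_contra hcon
    push Not at hcon
    exact hd ((pow_dvd_pow 2 hcon).trans (dvd_mul_right _ _))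
  rw [geom_prod]
  refine prod_eq_zero (i := m - e) (mem_range.2 (by omega)) ?_
  have h1 : (w ^ (2 ^ e * t)) ^ 2 ^ (m - e) = (w ^ (2 ^ m)) ^ t := by
    rw [← pow_mul, ← pow_mul]
    congr 1
    have : 2 ^ m = 2 ^ e * 2 ^ (m - e) := by rw [← pow_add]; congr 1; omega
    rw [this]; ring
  rw [h1, hw, ht.neg_one_pow]
  ring

/-- inverse transform of the pointwise product -/
lemma conv {A : Type} [CommRing A] (w : A) (m : ℕ) (hw : w ^ (2 ^ m) = -1) (F G : ℕ → A)
    (hF : ∀ a, 2 ^ m ≤ a → F a = 0) (hG : ∀ a, 2 ^ m ≤ a → G a = 0) (u : ℕ)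
    (hu : 2 ^ (m + 1) ∣ u + 1) (c : ℕ) (hc : c < 2 ^ (m + 1)) :
    ∑ j ∈ range (2 ^ (m + 1)), ((∑ a ∈ range (2 ^ (m + 1)), F a * w ^ (a * j)) *
      (∑ b ∈ range (2 ^ (m + 1)), G b * w ^ (b * j))) * w ^ (u * j * c) =
    2 ^ (m + 1) * ∑ a ∈ range (2 ^ (m + 1)), ∑ b ∈ range (2 ^ (m + 1)),
      if a + b = c then F a * G b else 0 := by
  have h1 : ∀ j, ((∑ a ∈ range (2 ^ (m + 1)), F a * w ^ (a * j)) *
      (∑ b ∈ range (2 ^ (m + 1)), G b * w ^ (b * j))) * w ^ (u * j * c) =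
      ∑ a ∈ range (2 ^ (m + 1)), ∑ b ∈ range (2 ^ (m + 1)),
        F a * G b * (w ^ (a + b + u * c)) ^ j := by
    intro j
    rw [sum_mul_sum, sum_mul]
    refine sum_congr rfl fun a _ => ?_
    rw [sum_mul]
    refine sum_congr rfl fun b _ => ?_
    rw [← pow_mul]
    have : (a + b + u * c) * j = a * j + b * j + u * j * c := by ring
    rw [this, pow_add, pow_add]
    ring
  simp only [h1]
  rw [sum_comm, mul_sum]
  refine sum_congr rfl fun a ha => ?_
  rw [sum_comm, mul_sum]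
  refine sum_congr rfl fun b hb => ?_
  rw [← mul_sum]
  by_cases ha' : 2 ^ m ≤ a
  · rw [hF a ha']; simp
  by_cases hb' : 2 ^ m ≤ b
  · rw [hG b hb']; simp
  by_cases hab : a + b = c
  · rw [if_pos hab]
    have h2 : w ^ (a + b + u * c) = 1 := by
      obtain ⟨q, hq⟩ := hu
      have : a + b + u * c = 2 ^ m * (2 * (q * c)) := by
        have h3 : a + b + u * c = (u + 1) * c := by rw [hab]; ring
        rw [h3, hq, pow_succ]; ring
      rw [this, pow_mul, hw, pow_mul]
      simp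
    simp only [h2, one_pow, sum_const, card_range, nsmul_eq_mul, mul_one]
    push_cast
    ring
  · rw [if_neg hab, geom_zero w m hw, mul_zero, mul_zero]
    intro hdiv
    apply hab
    have h4 : 2 ^ (m + 1) = 2 * 2 ^ m := by rw [pow_succ]; ring
    have h5 : (a + b) % 2 ^ (m + 1) = c % 2 ^ (m + 1) := by
      have h6 : 2 ^ (m + 1) ∣ u * c + c := by
        have := hu.mul_right c
        rwa [add_mul, one_mul] at this
      have h7 : (a + b + u * c) % 2 ^ (m + 1) = (u * c + c) % 2 ^ (m + 1) := by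
        rw [Nat.mod_eq_zero_of_dvd hdiv, Nat.mod_eq_zero_of_dvd h6]
      have h8 : (u * c + (a + b)) ≡ (u * c + c) [MOD 2 ^ (m + 1)] := by
        show _ % _ = _ % _
        rw [← h7]; congr 1; ring
      exact Nat.ModEq.add_left_cancel' _ h8
    rwa [Nat.mod_eq_of_lt (by omega), Nat.mod_eq_of_lt hc] at h5

/-- multiplication by `y` with `y ^ n = -1` -/
lemma shift {B : Type} [CommRing B] (y : B) (n : ℕ) (hn : 1 ≤ n) (hy : y ^ n = -1)
    (d : ℕ → B) :
    ∑ j ∈ range n, (if j = 0 then - d (n - 1) else d (j - 1)) * y ^ j =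
      y * ∑ j ∈ range n, d j * y ^ j := by
  obtain ⟨n, rfl⟩ : ∃ k, n = k + 1 := ⟨n - 1, by omega⟩
  rw [sum_range_succ', sum_range_succ]
  simp only [Nat.add_one_ne_zero, if_false, Nat.add_sub_cancel, if_true, pow_zero, mul_one]
  rw [mul_add, mul_sum]
  have h1 : y * (d n * y ^ n) = - d n := by
    have : y * (d n * y ^ n) = d n * y ^ (n + 1) := by ring
    rw [this, hy]; ring
  rw [h1]
  congr 1
  refine sum_congr rfl fun j _ => ?_
  ring

end Pool.Agent.H195.NL
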