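import Pool.Agent.H195.NL.Neg1

/-!
# Negacyclic convolution, part 2: correctness of Nussbaumer's recursion
-/

set_option autoImplicit false
set_option linter.unusedSectionVars false

open Polynomial Finset

namespace Pool.Agent.H195.NL

open Pool.Agent.H717.NL

/-- reduction modulo `X ^ (2 ^ s) + 1` -/
noncomputable def red (s : ℕ) (q : ℝ[X]) : Fin (2 ^ s) → ℝ :=
  fun i => (q %ₘ (X ^ (2 ^ s) + 1)).coeff i

/-- the transform of `S_dftcost` -/
noncomputable def dft (s m u : ℕ) (F : Fin (2 ^ m) → Fin (2 ^ s) → ℝ) :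
    Fin (2 ^ m) → Fin (2 ^ s) → ℝ := fun j =>
  red s (∑ a : Fin (2 ^ m), toPoly (F a) * X ^ (u * 2 ^ (s + 1 - m) * (a : ℕ) * (j : ℕ)))

/-- negacyclic product -/
noncomputable def neg (k : ℕ) (p : (Fin (2 ^ k) → ℝ) × (Fin (2 ^ k) → ℝ)) : Fin (2 ^ k) → ℝ :=
  red k (toPoly p.1 * toPoly p.2)

/-- padded blocks -/
noncomputable def pad (s s' : ℕ) (f : Fin (2 ^ (s + s')) → ℝ) :
    Fin (2 ^ (s' + 1)) → Fin (2 ^ s) → ℝ := fun a j =>
  if (a : ℕ) < 2 ^ s' then ext f ((a : ℕ) + 2 ^ s' * (j : ℕ)) else 0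

/-- entries with natural indices -/
noncomputable def hh {s s' : ℕ} (H : Fin (2 ^ (s' + 1)) → Fin (2 ^ s) → ℝ) (a j : ℕ) : ℝ :=
  if h : a < 2 ^ (s' + 1) then ext (H ⟨a, h⟩) j else 0

/-- reassembly -/
noncomputable def comb (s s' : ℕ) (H : Fin (2 ^ (s' + 1)) → Fin (2 ^ s) → ℝ) :
    Fin (2 ^ (s + s')) → ℝ := fun l =>
  (hh H ((l : ℕ) % 2 ^ s') ((l : ℕ) / 2 ^ s') +
    (if (l : ℕ) / 2 ^ s' = 0 then - hh H ((l : ℕ) % 2 ^ s' + 2 ^ s') (2 ^ s - 1)
      else hh H ((l : ℕ) % 2 ^ s' + 2 ^ s') ((l : ℕ) / 2 ^ s' - 1))) / 2 ^ (s' + 1)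

lemma monicM (k : ℕ) : (X ^ (2 ^ k) + 1 : ℝ[X]).Monic := by
  have := monic_X_pow_add_C (1 : ℝ) (n := 2 ^ k) (by positivity)
  simpa using this

lemma degM (k : ℕ) : (X ^ (2 ^ k) + 1 : ℝ[X]).degree = ((2 ^ k : ℕ) : WithBot ℕ) := by
  have := degree_X_pow_add_C (n := 2 ^ k) (by positivity) (1 : ℝ)
  simpa using this

lemma toPoly_range {n : ℕ} (v : Fin n → ℝ) :
    toPoly v = ∑ i ∈ range n, C (ext v i) * X ^ i := by
  unfold toPoly
  rw [← Fin.sum_univ_eq_sum_range (fun i => C (ext v i) * X ^ i) n]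
  refine sum_congr rfl fun i _ => ?_
  simp [Pool.Agent.H717.NL.ext]

lemma toPoly_coeff_fun {n : ℕ} (q : ℝ[X]) (hq : q.degree < n) :
    toPoly (fun i : Fin n => q.coeff i) = q := by
  unfold toPoly
  rw [Fin.sum_univ_eq_sum_range (fun i => C (q.coeff i) * X ^ i) n]
  rcases eq_or_ne q 0 with h0 | h0
  · subst h0; simp
  · have h1 : q.natDegree < n := (natDegree_lt_iff_degree_lt h0).2 hq
    conv_rhs => rw [q.as_sum_range' n h1]
    refine sum_congr rfl fun i _ => ?_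
    rw [C_mul_X_pow_eq_monomial]

lemma toPoly_red (s : ℕ) (q : ℝ[X]) : toPoly (red s q) = q %ₘ (X ^ (2 ^ s) + 1) := by
  refine toPoly_coeff_fun _ ?_
  have := degree_modByMonic_lt q (monicM s)
  rwa [degM] at this

lemma coeff_toPoly {n : ℕ} (v : Fin n → ℝ) (i : Fin n) : (toPoly v).coeff i = v i := by
  unfold toPoly
  simp only [finsetSum_coeff, coeff_C_mul, coeff_X_pow, mul_ite, mul_one, mul_zero]
  rw [sum_eq_single i]
  · simp
  · intro j _ hj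
    rw [if_neg]
    intro h
    exact hj (Fin.ext h.symm)
  · simp

lemma deg_toPoly {n : ℕ} (v : Fin n → ℝ) : (toPoly v).degree < n := degree_sum_fin_lt v

lemma red_eq_of_dvd {k : ℕ} {q : ℝ[X]} {r : Fin (2 ^ k) → ℝ}
    (h : (X ^ (2 ^ k) + 1 : ℝ[X]) ∣ q - toPoly r) : red k q = r := by
  have h1 : q %ₘ (X ^ (2 ^ k) + 1) = toPoly r := by
    have h2 : (q - toPoly r) %ₘ (X ^ (2 ^ k) + 1) = 0 :=
      (modByMonic_eq_zero_iff_dvd (monicM k)).2 h
    rw [sub_modByMonic] at h2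
    have h3 : toPoly r %ₘ (X ^ (2 ^ k) + 1) = toPoly r := by
      rw [modByMonic_eq_self_iff (monicM k), degM]
      exact deg_toPoly r
    rw [h3] at h2
    exact sub_eq_zero.1 h2
  funext i
  unfold red
  rw [h1, coeff_toPoly]

section alg

variable {B : Type} [CommRing B] [Algebra ℝ B]

lemma aeval_toPoly {n : ℕ} (y : B) (v : Fin n → ℝ) :
    aeval y (toPoly v) = ∑ j ∈ range n, algebraMap ℝ B (ext v j) * y ^ j := by
  rw [toPoly_range, map_sum]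
  refine sum_congr rfl fun j _ => ?_
  simp

lemma aeval_red {s : ℕ} (y : B) (hy : y ^ (2 ^ s) = -1) (q : ℝ[X]) :
    aeval y (toPoly (red s q)) = aeval y q := by
  rw [toPoly_red]
  conv_rhs => rw [← modByMonic_add_div q (X ^ (2 ^ s) + 1)]
  rw [map_add, map_mul]
  have : aeval y (X ^ (2 ^ s) + 1 : ℝ[X]) = 0 := by
    simp [hy]
  rw [this]; ring

/-- values of blocks -/
noncomputable def fa {s m : ℕ} (y : B) (F : Fin (2 ^ m) → Fin (2 ^ s) → ℝ) (a : ℕ) : B :=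
  if h : a < 2 ^ m then aeval y (toPoly (F ⟨a, h⟩)) else 0

lemma aeval_dft {s s' u : ℕ} (hs : s' ≤ s) (y : B) (hy : y ^ (2 ^ s) = -1)
    (F : Fin (2 ^ (s' + 1)) → Fin (2 ^ s) → ℝ) (j : ℕ) (hj : j < 2 ^ (s' + 1)) :
    fa y (dft s (s' + 1) u F) j = ∑ a ∈ range (2 ^ (s' + 1)), fa y F a *
      (y ^ (2 ^ (s - s'))) ^ (u * a * j) := by
  unfold fa
  rw [dif_pos hj]
  unfold dft
  rw [aeval_red y hy, map_sum]
  rw [← Fin.sum_univ_eq_sum_range (fun a => (if h : a < 2 ^ (s' + 1) then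
    aeval y (toPoly (F ⟨a, h⟩)) else 0) * (y ^ (2 ^ (s - s'))) ^ (u * a * j))]
  refine sum_congr rfl fun a _ => ?_
  rw [dif_pos a.isLt, map_mul, map_pow, aeval_X, ← pow_mul]
  congr 2
  have : s + 1 - (s' + 1) = s - s' := by omega
  rw [this]
  ring

lemma w_pow {s s' : ℕ} (hs : s' ≤ s) (y : B) (hy : y ^ (2 ^ s) = -1) :
    (y ^ (2 ^ (s - s'))) ^ (2 ^ s') = -1 := by
  rw [← pow_mul, ← pow_add, Nat.sub_add_cancel hs, hy]

lemma aeval_H {s s' : ℕ} (hs : s' ≤ s) (y : B) (hy : y ^ (2 ^ s) = -1)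
    (F G : Fin (2 ^ (s' + 1)) → Fin (2 ^ s) → ℝ)
    (hF : ∀ a, 2 ^ s' ≤ a → fa y F a = 0) (hG : ∀ a, 2 ^ s' ≤ a → fa y G a = 0)
    (c : ℕ) (hc : c < 2 ^ (s' + 1)) :
    fa y (dft s (s' + 1) (2 ^ (s + 1) - 1) (fun j => neg s (dft s (s' + 1) 1 F j,
      dft s (s' + 1) 1 G j))) c =
    2 ^ (s' + 1) * ∑ a ∈ range (2 ^ (s' + 1)), ∑ b ∈ range (2 ^ (s' + 1)),
      if a + b = c then fa y F a * fa y G b else 0 := by
  rw [aeval_dft hs y hy _ c hc]
  rw [← conv (y ^ (2 ^ (s - s'))) s' (w_pow hs y hy) (fa y F) (fa y G) hF hG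
    (2 ^ (s + 1) - 1) ?_ c hc]
  · refine sum_congr rfl fun j hj => ?_
    have hj' := mem_range.1 hj
    congr 1
    have h1 := aeval_dft (u := 1) hs y hy F j hj'
    have h2 := aeval_dft (u := 1) hs y hy G j hj'
    simp only [one_mul] at h1 h2
    rw [← h1, ← h2]
    unfold fa
    rw [dif_pos hj', dif_pos hj', dif_pos hj']
    unfold neg
    rw [aeval_red y hy, map_mul]
  · have h1 : 1 ≤ 2 ^ (s + 1) := Nat.one_le_two_pow
    rw [Nat.sub_add_cancel h1]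
    exact pow_dvd_pow 2 (by omega)

lemma sum_blocks (L n : ℕ) (φ : ℕ → B) :
    ∑ l ∈ range (L * n), φ l = ∑ a ∈ range L, ∑ j ∈ range n, φ (a + L * j) := by
  induction n with
  | zero => simp
  | succ n ih =>
    rw [Nat.mul_succ, sum_range_add, ih]
    simp only [sum_range_succ]
    rw [sum_add_distrib]
    congr 1
    refine sum_congr rfl fun a _ => ?_
    rw [add_comm]

lemma aeval_pad {s s' : ℕ} (y : B) (f : Fin (2 ^ (s + s')) → ℝ) (a : ℕ) :
    fa y (pad s s' f) a = if a < 2 ^ s' then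
      ∑ j ∈ range (2 ^ s), algebraMap ℝ B (ext f (a + 2 ^ s' * j)) * y ^ j else 0 := by
  have h1 : 2 ^ (s' + 1) = 2 * 2 ^ s' := by rw [pow_succ]; ring
  unfold fa
  split_ifs with h2 h3 h3
  · rw [aeval_toPoly]
    refine sum_congr rfl fun j hj => ?_
    have hj' := mem_range.1 hj
    congr 2
    simp [Pool.Agent.H717.NL.ext, pad, hj', h3]
  · rw [aeval_toPoly]
    refine sum_eq_zero fun j hj => ?_
    have hj' := mem_range.1 hj
    have : ext (pad s s' f ⟨a, h2⟩) j = 0 := by simp [Pool.Agent.H717.NL.ext, pad, h3]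
    rw [this]; simp
  · exact absurd h3 (by omega)
  · rfl

/-- the polynomial in terms of its blocks -/
lemma aeval_blocks {s s' : ℕ} (x : B) (f : Fin (2 ^ (s + s')) → ℝ) :
    aeval x (toPoly f) =
      ∑ a ∈ range (2 ^ s'), x ^ a * ∑ j ∈ range (2 ^ s),
        algebraMap ℝ B (ext f (a + 2 ^ s' * j)) * (x ^ (2 ^ s')) ^ j := by
  rw [aeval_toPoly]
  have key : ∀ φ : ℕ → B, ∑ l ∈ range (2 ^ (s + s')), φ l =
      ∑ a ∈ range (2 ^ s'), ∑ j ∈ range (2 ^ s), φ (a + 2 ^ s' * j) := by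
    intro φ
    have h1 : 2 ^ (s + s') = 2 ^ s' * 2 ^ s := by rw [pow_add]; ring
    rw [h1, sum_blocks]
  rw [key]
  refine sum_congr rfl fun a _ => ?_
  rw [mul_sum]
  refine sum_congr rfl fun j _ => ?_
  rw [pow_add x a, pow_mul x]
  ring

lemma aeval_comb {s s' : ℕ} (x : B) (hx : x ^ (2 ^ (s + s')) = -1)
    (H : Fin (2 ^ (s' + 1)) → Fin (2 ^ s) → ℝ) :
    2 ^ (s' + 1) * aeval x (toPoly (comb s s' H)) =
      ∑ c ∈ range (2 ^ (s' + 1)), x ^ c * fa (x ^ (2 ^ s')) H c := by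
  have hs'1 : 2 ^ (s' + 1) = 2 ^ s' + 2 ^ s' := by rw [pow_succ]; ring
  have hpos : 0 < 2 ^ s' := by positivity
  have hpos2 : 0 < 2 ^ s := by positivity
  set y : B := x ^ (2 ^ s') with hy
  have hy1 : y ^ (2 ^ s) = -1 := by
    rw [hy, ← pow_mul, ← hx, pow_add]; congr 1; ring
  have hfa : ∀ c, c < 2 ^ (s' + 1) → fa y H c =
      ∑ j ∈ range (2 ^ s), algebraMap ℝ B (hh H c j) * y ^ j := by
    intro c hc
    unfold fa
    rw [dif_pos hc, aeval_toPoly]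
    refine sum_congr rfl fun j _ => ?_
    unfold hh
    rw [dif_pos hc]
  rw [aeval_blocks]
  have hR : ∑ c ∈ range (2 ^ (s' + 1)), x ^ c * fa y H c =
      ∑ a ∈ range (2 ^ s'), x ^ a * (fa y H a + y * fa y H (a + 2 ^ s')) := by
    rw [hs'1, sum_range_add, ← sum_add_distrib]
    refine sum_congr rfl fun a _ => ?_
    rw [pow_add, ← hy, add_comm (2 ^ s') a]
    ring
  rw [hR, mul_sum]
  refine sum_congr rfl fun a ha => ?_
  have ha' := mem_range.1 ha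
  rw [hfa a (by omega), hfa (a + 2 ^ s') (by omega)]
  rw [← shift y (2 ^ s) hpos2 hy1, ← sum_add_distrib, mul_left_comm]
  congr 1
  rw [mul_sum]
  refine sum_congr rfl fun j hj => ?_
  have hj' := mem_range.1 hj
  have hlt : a + 2 ^ s' * j < 2 ^ (s + s') := by
    have h1 : 2 ^ (s + s') = 2 ^ s' * 2 ^ s := by rw [pow_add]; ring
    rw [h1]
    calc a + 2 ^ s' * j < 2 ^ s' + 2 ^ s' * j := by omega
      _ = 2 ^ s' * (j + 1) := by ring
      _ ≤ 2 ^ s' * 2 ^ s := Nat.mul_le_mul_left _ hj'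
  have hmod : (a + 2 ^ s' * j) % 2 ^ s' = a := by
    rw [Nat.add_mul_mod_self_left, Nat.mod_eq_of_lt ha']
  have hdiv : (a + 2 ^ s' * j) / 2 ^ s' = j := by
    rw [Nat.add_mul_div_left _ _ hpos, Nat.div_eq_of_lt ha', zero_add]
  have hext : ext (comb s s' H) (a + 2 ^ s' * j) =
      (hh H a j + (if j = 0 then - hh H (a + 2 ^ s') (2 ^ s - 1)
        else hh H (a + 2 ^ s') (j - 1))) / 2 ^ (s' + 1) := by
    unfold Pool.Agent.H717.NL.ext
    rw [dif_pos hlt]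
    show (hh H ((a + 2 ^ s' * j) % 2 ^ s') ((a + 2 ^ s' * j) / 2 ^ s') +
      (if (a + 2 ^ s' * j) / 2 ^ s' = 0 then
        - hh H ((a + 2 ^ s' * j) % 2 ^ s' + 2 ^ s') (2 ^ s - 1)
      else hh H ((a + 2 ^ s' * j) % 2 ^ s' + 2 ^ s') ((a + 2 ^ s' * j) / 2 ^ s' - 1))) /
        2 ^ (s' + 1) = _
    rw [hmod, hdiv]
  rw [hext]
  have h2 : (2 : B) ^ (s' + 1) * algebraMap ℝ B ((hh H a j +
      (if j = 0 then - hh H (a + 2 ^ s') (2 ^ s - 1) else hh H (a + 2 ^ s') (j - 1))) /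
        2 ^ (s' + 1)) = algebraMap ℝ B (hh H a j +
      (if j = 0 then - hh H (a + 2 ^ s') (2 ^ s - 1) else hh H (a + 2 ^ s') (j - 1))) := by
    have h3 : (2 : B) ^ (s' + 1) = algebraMap ℝ B ((2 : ℝ) ^ (s' + 1)) := by
      rw [map_pow, map_ofNat]
    rw [h3, ← map_mul]
    congr 1
    field_simp
  rw [← mul_assoc, h2, map_add, add_mul]
  congr 2
  split_ifs <;> simp

end alg

/-- correctness of the recursion -/
theorem correct {s s' : ℕ} (hs : s' ≤ s) (f g : Fin (2 ^ (s + s')) → ℝ) :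
    comb s s' (dft s (s' + 1) (2 ^ (s + 1) - 1) (fun j =>
      neg s (dft s (s' + 1) 1 (pad s s' f) j, dft s (s' + 1) 1 (pad s s' g) j))) =
      neg (s + s') (f, g) := by
  symm
  apply red_eq_of_dvd
  rw [← AdjoinRoot.mk_eq_mk, ← AdjoinRoot.aeval_eq, ← AdjoinRoot.aeval_eq]
  set x := AdjoinRoot.root (X ^ (2 ^ (s + s')) + 1 : ℝ[X]) with hxdef
  have hx : x ^ (2 ^ (s + s')) = -1 := by
    have h1 : AdjoinRoot.mk (X ^ (2 ^ (s + s')) + 1 : ℝ[X]) (X ^ (2 ^ (s + s')) + 1) = 0 :=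
      AdjoinRoot.mk_self
    rw [map_add, map_pow, AdjoinRoot.mk_X, map_one] at h1
    exact eq_neg_of_add_eq_zero_left h1
  set y := x ^ (2 ^ s') with hy
  have hy1 : y ^ (2 ^ s) = -1 := by
    have h0 : 2 ^ s' * 2 ^ s = 2 ^ (s + s') := by rw [pow_add]; ring
    rw [hy, ← pow_mul, h0]
    exact hx
  have hs'1 : 2 ^ (s' + 1) = 2 ^ s' + 2 ^ s' := by rw [pow_succ]; ring
  have hz : ∀ f : Fin (2 ^ (s + s')) → ℝ, ∀ a, 2 ^ s' ≤ a → fa y (pad s s' f) a = 0 := by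
    intro f a ha
    rw [aeval_pad, if_neg (by omega)]
  have hf : ∀ f : Fin (2 ^ (s + s')) → ℝ, aeval x (toPoly f) =
      ∑ a ∈ range (2 ^ (s' + 1)), x ^ a * fa y (pad s s' f) a := by
    intro f
    rw [hs'1, sum_range_add, aeval_blocks]
    have h1 : ∑ a ∈ range (2 ^ s'), x ^ (2 ^ s' + a) * fa y (pad s s' f) (2 ^ s' + a) = 0 :=
      sum_eq_zero fun a _ => by rw [hz f _ (by omega), mul_zero]
    rw [h1, add_zero]
    refine sum_congr rfl fun a ha => ?_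
    rw [aeval_pad, if_pos (mem_range.1 ha)]
  have h2 : (2 : AdjoinRoot (X ^ (2 ^ (s + s')) + 1 : ℝ[X])) ^ (s' + 1) *
      aeval x (toPoly f * toPoly g) = 2 ^ (s' + 1) * aeval x (toPoly
        (comb s s' (dft s (s' + 1) (2 ^ (s + 1) - 1) (fun j =>
      neg s (dft s (s' + 1) 1 (pad s s' f) j, dft s (s' + 1) 1 (pad s s' g) j))))) := by
    rw [aeval_comb x hx, map_mul, hf, hf, sum_mul_sum]
    have h3 : ∀ c ∈ range (2 ^ (s' + 1)), x ^ c * fa y (dft s (s' + 1) (2 ^ (s + 1) - 1)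
        (fun j => neg s (dft s (s' + 1) 1 (pad s s' f) j, dft s (s' + 1) 1 (pad s s' g) j))) c =
        2 ^ (s' + 1) * ∑ a ∈ range (2 ^ (s' + 1)), ∑ b ∈ range (2 ^ (s' + 1)),
          if a + b = c then x ^ c * (fa y (pad s s' f) a * fa y (pad s s' g) b) else 0 := by
      intro c hc
      rw [aeval_H hs y hy1 _ _ (hz f) (hz g) c (mem_range.1 hc), mul_left_comm]
      congr 1
      rw [mul_sum]
      refine sum_congr rfl fun a _ => ?_
      rw [mul_sum]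
      refine sum_congr rfl fun b _ => ?_
      rw [mul_ite, mul_zero]
    rw [sum_congr rfl h3, ← mul_sum]
    congr 1
    symm
    rw [sum_comm]
    refine sum_congr rfl fun a _ => ?_
    rw [sum_comm]
    refine sum_congr rfl fun b _ => ?_
    by_cases ha : 2 ^ s' ≤ a
    · rw [hz f a ha]; simp
    by_cases hb : 2 ^ s' ≤ b
    · rw [hz g b hb]; simp
    rw [sum_ite_eq, if_pos (mem_range.2 (by omega)), pow_add x a b]
    ring
  have h4 : IsUnit ((2 : AdjoinRoot (X ^ (2 ^ (s + s')) + 1 : ℝ[X])) ^ (s' + 1)) := by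
    have h5 : (2 : AdjoinRoot (X ^ (2 ^ (s + s')) + 1 : ℝ[X])) ^ (s' + 1) =
        algebraMap ℝ _ ((2 : ℝ) ^ (s' + 1)) := by
      rw [map_pow, map_ofNat]
    rw [h5]
    exact (IsUnit.mk0 _ (by positivity)).map _
  exact h4.mul_left_cancel h2

end Pool.Agent.H195.NL
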